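import Mathlib
import Pool.Agent.H.MP_b44203_nt.B

namespace Pool.Agent.Results.MP_b44203_nt.Full

/-- number of finite sets of distinct numbers `p^α q^β` with sum `n` -/
noncomputable def f (p q n : ℕ) : ℕ :=
  Set.ncard {S : Finset ℕ | (∀ s ∈ S, ∃ α β : ℕ, s = p ^ α * q ^ β) ∧ ∑ s ∈ S, s = n}

lemma key (p q : ℕ) (hp : 2 < p) (hq : p < q) (h : Nat.Coprime p q) (s : ℝ) (hs : s = 1 ∨ s = -1)
    (N : ℕ) : ¬ ∀ n, N ≤ n → 0 ≤ s * ((f p q (n + 1) : ℝ) - f p q n) := by
  rcases Nat.even_or_odd p with he | ho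
  · have hq' : Odd q := by
      by_contra h2
      have := Nat.dvd_gcd he.two_dvd (Nat.not_odd_iff_even.1 h2).two_dvd
      rw [h] at this; omega
    have e : ∀ n, f p q n = Pool.Agent.H.MP_b44203_nt.f q p n := fun n => by
      unfold f Pool.Agent.H.MP_b44203_nt.f
      congr 1; ext S
      refine and_congr_left fun _ => forall₂_congr fun s _ => ?_
      constructor <;> rintro ⟨a, b, rfl⟩ <;> exact ⟨b, a, mul_comm _ _⟩
    simp only [e]
    exact Pool.Agent.H.MP_b44203_nt.main q p hq' (by omega) (by omega) h s hs N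
  · exact Pool.Agent.H.MP_b44203_nt.main p q ho (by omega) (by omega) h.symm s hs N

theorem result : ∀ p q : ℕ, 2 < p → p < q → Nat.Coprime p q →
    (∀ N, ∃ n, N ≤ n ∧ f p q n < f p q (n + 1)) ∧ (∀ N, ∃ n, N ≤ n ∧ f p q (n + 1) < f p q n) := by
  intro p q hp hq h
  constructor
  · intro N
    by_contra hc
    push Not at hc
    refine key p q hp hq h (-1) (Or.inr rfl) N fun n hn => ?_
    have : (f p q (n + 1) : ℝ) ≤ f p q n := by exact_mod_cast hc n hn
    linarith
  · intro N
    by_contra hc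
    push Not at hc
    refine key p q hp hq h 1 (Or.inl rfl) N fun n hn => ?_
    have : (f p q n : ℝ) ≤ f p q (n + 1) := by exact_mod_cast hc n hn
    linarith

end Pool.Agent.Results.MP_b44203_nt.Full
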